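import Pool.Agent.Helper3.T4.Tree

/-!
# Decoding of codes and of sums of two codes

The code of the family `i` is `Lg (x i) + ρ i x`, where `ρ i x` depends only on the coordinates
of smaller rank.
-/

namespace Pool.Agent.Helper3.T4

open Finset Pool.Agent.Helper27.T4

/-- pairs with a given quotient -/
theorem card_pairs_quot {p : ℕ} (hp : p.Prime) (hp2 : p ≠ 2) (b q : ℕ)
    (t : ZMod (p ^ b)) (S : Finset (ℕ × ℕ))
    (hS : ∀ z ∈ S, z.1.Prime ∧ z.2.Prime ∧ z.1.Coprime p ∧ z.2.Coprime p ∧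
      (z.1 * z.2) / p ^ (b + 1) = q ∧ Lg p b z.1 + Lg p b z.2 = t) :
    S.card ≤ 2 * (p - 1) := by
  classical
  refine le_trans (Finset.card_le_mul_card_image_of_maps_to
    (f := fun z : ℕ × ℕ => (z.1 * z.2) % p ^ (b + 1))
    (t := ((Finset.range (p ^ (b + 1))).filter (fun m => m.Coprime p ∧ Lg p b m = t))) ?_ 2 ?_)
    (Nat.mul_le_mul_left 2 (card_Lg_le hp hp2 b t))
  · intro z hz
    obtain ⟨_, _, h3, h4, _, h7⟩ := hS z hz
    have hc : (z.1 * z.2).Coprime p := Nat.Coprime.mul_left h3 h4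
    rw [Finset.mem_filter, Finset.mem_range]
    refine ⟨Nat.mod_lt _ (pow_pos hp.pos _), mod_coprime b _ hc, ?_⟩
    rw [Lg_mod, Lg_mul hp hp2 b _ _ h3 h4, h7]
  · intro m _
    refine card_two_primes_le _ (m + p ^ (b + 1) * q) ?_
    intro z hz
    rw [Finset.mem_filter] at hz
    obtain ⟨hz1, hz2⟩ := hz
    obtain ⟨h1, h2, _, _, h5, _⟩ := hS z hz1
    refine ⟨h1, h2, ?_⟩
    rw [← hz2, ← h5]
    exact (Nat.mod_add_div _ _).symm

section

variable {ι : Type*} [Fintype ι] [DecidableEq ι] {p : ι → ℕ}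

/-- number of tuples with a given code -/
theorem card_code_le (hp : ∀ i, (p i).Prime) (hp2 : ∀ i, p i ≠ 2) (a : ι → ℕ) (rk : ι → ℕ)
    (ρ : ∀ i, (ι → ℕ) → ZMod (p i ^ a i))
    (hρ : ∀ i x y, (∀ j, rk j < rk i → x j = y j) → ρ i x = ρ i y)
    (c : ∀ i, ZMod (p i ^ a i)) (S : Finset (ι → ℕ))
    (hS : ∀ x ∈ S, ∀ i, (x i).Coprime (p i) ∧ (x i) ^ 2 < p i ^ a i ∧
      Lg (p i) (a i) (x i) + ρ i x = c i) :
    S.card ≤ ∏ i, (p i - 1) := by
  classical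
  refine card_le_prod_of_rank rk (fun i => p i - 1) S ?_
  intro f g hg
  have h := card_single_le (hp f) (hp2 f) (a f) (a f) (c f - ρ f g)
    ((S.filter (fun g' => ∀ i, rk i < rk f → g' i = g i)).image (fun g' => g' f)) ?_
  · have h0 : (a f - 2 * a f) / 2 = 0 := by omega
    rw [h0, pow_zero, mul_one] at h
    exact h
  · intro x hx
    rw [Finset.mem_image] at hx
    obtain ⟨g', hg', rfl⟩ := hx
    rw [Finset.mem_filter] at hg'
    obtain ⟨h1, h2, h3⟩ := hS g' hg'.1 f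
    refine ⟨h1, h2, ?_⟩
    rw [← h3, hρ f g' g hg'.2]
    ring

/-- number of pairs of tuples whose codes have a given sum; `b ≤ a`, the families with
`b i < a i` have grown -/
theorem card_code_pairs_le (hp : ∀ i, (p i).Prime) (hp2 : ∀ i, p i ≠ 2) (a b : ι → ℕ)
    (hab : b ≤ a) (rk : ι → ℕ)
    (ρ ρ' : ∀ i, (ι → ℕ) → ZMod (p i ^ b i))
    (hρ : ∀ i x y, (∀ j, rk j < rk i → x j = y j) → ρ i x = ρ i y)
    (hρ' : ∀ i x y, (∀ j, rk j < rk i → x j = y j) → ρ' i x = ρ' i y)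
    (c : ∀ i, ZMod (p i ^ b i)) (S : Finset (ι → ℕ × ℕ))
    (hS : ∀ g ∈ S, ∀ i, (g i).1.Prime ∧ (g i).2.Prime ∧ (g i).1.Coprime (p i) ∧
      (g i).2.Coprime (p i) ∧ (g i).1 ^ 2 < p i ^ a i ∧ (g i).2 ^ 2 < p i ^ b i ∧
      (Lg (p i) (b i) (g i).1 + ρ i (fun j => (g j).1)) +
        (Lg (p i) (b i) (g i).2 + ρ' i (fun j => (g j).2)) = c i) :
    S.card ≤ ∏ i, (2 * ((p i - 1) * p i ^ ((a i - b i) / 2))) := by
  classical
  refine card_le_prod_of_rank rk _ S ?_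
  intro f g hg
  refine card_pairs_le (hp f) (hp2 f) (a f) (b f) (hab f)
    (c f - ρ f (fun j => (g j).1) - ρ' f (fun j => (g j).2)) _ ?_
  intro z hz
  rw [Finset.mem_image] at hz
  obtain ⟨g', hg', rfl⟩ := hz
  rw [Finset.mem_filter] at hg'
  obtain ⟨h1, h2, h3, h4, h5, h6, h7⟩ := hS g' hg'.1 f
  refine ⟨h1, h2, h3, h4, h5, h6, ?_⟩
  rw [← h7, hρ f (fun j => (g' j).1) (fun j => (g j).1) (fun j hj => by rw [hg'.2 j hj]),
    hρ' f (fun j => (g' j).2) (fun j => (g j).2) (fun j hj => by rw [hg'.2 j hj])]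
  ring

/-- the same, when the quotients of the products by `p^(b+1)` are given -/
theorem card_code_pairs_quot (hp : ∀ i, (p i).Prime) (hp2 : ∀ i, p i ≠ 2) (b : ι → ℕ)
    (rk : ι → ℕ) (ρ ρ' : ∀ i, (ι → ℕ) → ZMod (p i ^ b i))
    (hρ : ∀ i x y, (∀ j, rk j < rk i → x j = y j) → ρ i x = ρ i y)
    (hρ' : ∀ i x y, (∀ j, rk j < rk i → x j = y j) → ρ' i x = ρ' i y)
    (c : ∀ i, ZMod (p i ^ b i)) (q : ι → ℕ) (S : Finset (ι → ℕ × ℕ))
    (hS : ∀ g ∈ S, ∀ i, (g i).1.Prime ∧ (g i).2.Prime ∧ (g i).1.Coprime (p i) ∧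
      (g i).2.Coprime (p i) ∧ ((g i).1 * (g i).2) / p i ^ (b i + 1) = q i ∧
      (Lg (p i) (b i) (g i).1 + ρ i (fun j => (g j).1)) +
        (Lg (p i) (b i) (g i).2 + ρ' i (fun j => (g j).2)) = c i) :
    S.card ≤ ∏ i, (2 * (p i - 1)) := by
  classical
  refine card_le_prod_of_rank rk _ S ?_
  intro f g hg
  refine card_pairs_quot (hp f) (hp2 f) (b f) (q f)
    (c f - ρ f (fun j => (g j).1) - ρ' f (fun j => (g j).2)) _ ?_
  intro z hz
  rw [Finset.mem_image] at hz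
  obtain ⟨g', hg', rfl⟩ := hz
  rw [Finset.mem_filter] at hg'
  obtain ⟨h1, h2, h3, h4, h5, h7⟩ := hS g' hg'.1 f
  refine ⟨h1, h2, h3, h4, h5, ?_⟩
  rw [← h7, hρ f (fun j => (g' j).1) (fun j => (g j).1) (fun j hj => by rw [hg'.2 j hj]),
    hρ' f (fun j => (g' j).2) (fun j => (g j).2) (fun j hj => by rw [hg'.2 j hj])]
  ring

end

end Pool.Agent.Helper3.T4
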