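import Pool.Agent.Helper27.T4.Ind3

/-!
# Pairs of primes whose indices have a given sum

`x` is a prime with `x^2 < p^a`, `x'` a prime with `x'^2 < p^b`, `b ≤ a`.
-/

namespace Pool.Agent.Helper3.T4

open Finset Pool.Agent.Helper27.T4

theorem lt_pow_half {p : ℕ} (hp : p.Prime) (c i : ℕ) (h : i ^ 2 * p ^ 2 < p ^ c) :
    i < p ^ (c / 2) ∧ (i ≠ 0 → i * p < p ^ ((c + 1) / 2)) := by
  have h0 : 0 < p := hp.pos
  have h2 : i * p < p ^ ((c + 1) / 2) := by
    have h3 : (i * p) ^ 2 < (p ^ ((c + 1) / 2)) ^ 2 := by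
      rw [mul_pow, ← pow_mul]
      refine lt_of_lt_of_le h (Nat.pow_le_pow_right h0 ?_)
      omega
    exact lt_of_pow_lt_pow_left₀ 2 (Nat.zero_le _) h3
  refine ⟨?_, fun _ => h2⟩
  rcases Nat.even_or_odd c with ⟨d, hd⟩ | ⟨d, hd⟩
  · have h4 : c / 2 = d := by omega
    have h5 : (c + 1) / 2 = d := by omega
    rw [h4]
    rw [h5] at h2
    exact lt_of_le_of_lt (Nat.le_mul_of_pos_right i h0) h2
  · have h4 : c / 2 = d := by omega
    have h5 : (c + 1) / 2 = d + 1 := by omega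
    rw [h4]
    rw [h5, pow_succ] at h2
    exact lt_of_mul_lt_mul_right h2 (Nat.zero_le _)

/-- the product of `x` and `x'`, in terms of its residue -/
theorem prod_param {p : ℕ} (hp : p.Prime) (a b x y : ℕ) (hab : b ≤ a)
    (hx : x ^ 2 < p ^ a) (hy : y ^ 2 < p ^ b) :
    x * y = (x * y) % p ^ (b + 1) + (x * y) / p ^ (b + 1) * p ^ (b + 1) ∧
      (x * y) / p ^ (b + 1) < p ^ ((a - b) / 2) := by
  refine ⟨by rw [mul_comm _ (p ^ (b + 1))]; exact (Nat.mod_add_div _ _).symm, ?_⟩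
  refine (lt_pow_half hp (a - b) _ ?_).1
  have h0 : 0 < p := hp.pos
  set i := (x * y) / p ^ (b + 1) with hi
  have h1 : i * p ^ (b + 1) ≤ x * y := Nat.div_mul_le_self _ _
  have h2 : (i * p ^ (b + 1)) ^ 2 < p ^ (a + b) := by
    calc (i * p ^ (b + 1)) ^ 2 ≤ (x * y) ^ 2 := Nat.pow_le_pow_left h1 2
      _ = x ^ 2 * y ^ 2 := by ring
      _ < p ^ a * p ^ b := Nat.mul_lt_mul'' hx hy
      _ = p ^ (a + b) := (pow_add _ _ _).symm
  have h3 : i ^ 2 * p ^ 2 * p ^ (2 * b) < p ^ (a - b) * p ^ (2 * b) := by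
    calc i ^ 2 * p ^ 2 * p ^ (2 * b) = (i * p ^ (b + 1)) ^ 2 := by ring
      _ < p ^ (a + b) := h2
      _ = p ^ (a - b) * p ^ (2 * b) := by
        rw [← pow_add]
        congr 1
        omega
  exact lt_of_mul_lt_mul_right h3 (Nat.zero_le _)

/-- the classes modulo `p^(b+1)` with a given index -/
theorem Lg_mod {p : ℕ} (b m : ℕ) : Lg p b (m % p ^ (b + 1)) = Lg p b m := by
  apply Lg_congr
  rw [ZMod.natCast_mod]

theorem mod_coprime {p : ℕ} (b m : ℕ) (hm : m.Coprime p) : (m % p ^ (b + 1)).Coprime p := by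
  have h1 : m.Coprime (p ^ (b + 1)) := Nat.Coprime.pow_right _ hm
  have h2 : (m % p ^ (b + 1)).Coprime (p ^ (b + 1)) := by
    rw [Nat.Coprime, ← Nat.gcd_rec, Nat.gcd_comm]
    exact h1
  exact Nat.Coprime.coprime_dvd_right (dvd_pow_self p (Nat.succ_ne_zero b)) h2

/-- all pairs, one component, growth allowed -/
theorem card_pairs_le {p : ℕ} (hp : p.Prime) (hp2 : p ≠ 2) (a b : ℕ) (hab : b ≤ a)
    (t : ZMod (p ^ b)) (S : Finset (ℕ × ℕ))
    (hS : ∀ q ∈ S, q.1.Prime ∧ q.2.Prime ∧ q.1.Coprime p ∧ q.2.Coprime p ∧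
      q.1 ^ 2 < p ^ a ∧ q.2 ^ 2 < p ^ b ∧ Lg p b q.1 + Lg p b q.2 = t) :
    S.card ≤ 2 * ((p - 1) * p ^ ((a - b) / 2)) := by
  classical
  set T := ((Finset.range (p ^ (b + 1))).filter (fun m => m.Coprime p ∧ Lg p b m = t)) ×ˢ
    Finset.range (p ^ ((a - b) / 2)) with hT
  have hTc : T.card ≤ (p - 1) * p ^ ((a - b) / 2) := by
    rw [hT, Finset.card_product, Finset.card_range]
    exact Nat.mul_le_mul_right _ (card_Lg_le hp hp2 b t)
  refine le_trans (Finset.card_le_mul_card_image_of_maps_to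
    (f := fun q : ℕ × ℕ => ((q.1 * q.2) % p ^ (b + 1), (q.1 * q.2) / p ^ (b + 1)))
    (t := T) ?_ 2 ?_) (Nat.mul_le_mul_left 2 hTc)
  · intro q hq
    obtain ⟨_, _, h3, h4, h5, h6, h7⟩ := hS q hq
    have hc : (q.1 * q.2).Coprime p := Nat.Coprime.mul_left h3 h4
    rw [hT, Finset.mem_product]
    simp only [Finset.mem_filter, Finset.mem_range]
    refine ⟨⟨Nat.mod_lt _ (pow_pos hp.pos _), mod_coprime b _ hc, ?_⟩,
      (prod_param hp a b q.1 q.2 hab h5 h6).2⟩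
    rw [Lg_mod, Lg_mul hp hp2 b _ _ h3 h4, h7]
  · intro m _
    refine card_two_primes_le _ (m.1 + m.2 * p ^ (b + 1)) ?_
    intro q hq
    simp only [Finset.mem_filter] at hq
    obtain ⟨hq1, hq2⟩ := hq
    obtain ⟨h1, h2, _, _, h5, h6, _⟩ := hS q hq1
    refine ⟨h1, h2, ?_⟩
    rw [← hq2]
    exact (prod_param hp a b q.1 q.2 hab h5 h6).1

/-- pairs at the same level -/
theorem card_pairs_static {p : ℕ} (hp : p.Prime) (hp2 : p ≠ 2) (a : ℕ)
    (t : ZMod (p ^ a)) (S : Finset (ℕ × ℕ))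
    (hS : ∀ q ∈ S, q.1.Prime ∧ q.2.Prime ∧ q.1.Coprime p ∧ q.2.Coprime p ∧
      q.1 ^ 2 < p ^ a ∧ q.2 ^ 2 < p ^ a ∧ Lg p a q.1 + Lg p a q.2 = t) :
    S.card ≤ 2 * (p - 1) := by
  have := card_pairs_le hp hp2 a a le_rfl t S hS
  simpa using this

/-- given one prime, the number of primes of the other side with a given index:
`x^2 < p^a`, the index is known modulo `p^b` -/
theorem card_single_le {p : ℕ} (hp : p.Prime) (hp2 : p ≠ 2) (a b : ℕ)
    (t : ZMod (p ^ b)) (S : Finset ℕ)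
    (hS : ∀ x ∈ S, x.Coprime p ∧ x ^ 2 < p ^ a ∧ Lg p b x = t) :
    S.card ≤ (p - 1) * p ^ ((a - 2 * b) / 2) := by
  classical
  set T := ((Finset.range (p ^ (b + 1))).filter (fun m => m.Coprime p ∧ Lg p b m = t)) ×ˢ
    Finset.range (p ^ ((a - 2 * b) / 2)) with hT
  have hTc : T.card ≤ (p - 1) * p ^ ((a - 2 * b) / 2) := by
    rw [hT, Finset.card_product, Finset.card_range]
    exact Nat.mul_le_mul_right _ (card_Lg_le hp hp2 b t)
  refine le_trans (Finset.card_le_card_of_injOn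
    (fun x : ℕ => (x % p ^ (b + 1), x / p ^ (b + 1))) ?_ ?_) hTc
  · intro x hx
    obtain ⟨h1, h2, h3⟩ := hS x hx
    rw [hT]
    simp only [Finset.coe_product, Set.mem_prod, Finset.mem_coe, Finset.mem_filter,
      Finset.mem_range]
    refine ⟨⟨Nat.mod_lt _ (pow_pos hp.pos _), mod_coprime b _ h1, by rw [Lg_mod, h3]⟩, ?_⟩
    have h0 : 0 < p := hp.pos
    set i := x / p ^ (b + 1) with hi
    have h4 : i * p ^ (b + 1) ≤ x := Nat.div_mul_le_self _ _
    have h5 : (i * p ^ (b + 1)) ^ 2 < p ^ a := lt_of_le_of_lt (Nat.pow_le_pow_left h4 2) h2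
    rcases Nat.lt_or_ge a (2 * b) with hlt | hge
    · have h6 : i = 0 := by
        by_contra hne
        have h7 : 1 ≤ i := Nat.one_le_iff_ne_zero.mpr hne
        have h8 : p ^ a ≤ (i * p ^ (b + 1)) ^ 2 := by
          calc p ^ a ≤ p ^ (2 * (b + 1)) := Nat.pow_le_pow_right h0 (by omega)
            _ = (1 * p ^ (b + 1)) ^ 2 := by rw [one_mul, ← pow_mul, mul_comm]
            _ ≤ (i * p ^ (b + 1)) ^ 2 := Nat.pow_le_pow_left (Nat.mul_le_mul_right _ h7) 2
        omega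
      rw [h6]
      exact pow_pos h0 _
    · refine (lt_pow_half hp (a - 2 * b) _ ?_).1
      have h3 : i ^ 2 * p ^ 2 * p ^ (2 * b) < p ^ (a - 2 * b) * p ^ (2 * b) := by
        calc i ^ 2 * p ^ 2 * p ^ (2 * b) = (i * p ^ (b + 1)) ^ 2 := by ring
          _ < p ^ a := h5
          _ = p ^ (a - 2 * b) * p ^ (2 * b) := by
            rw [← pow_add]
            congr 1
            omega
      exact lt_of_mul_lt_mul_right h3 (Nat.zero_le _)
  · intro x _ y _ hxy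
    simp only [Prod.mk.injEq] at hxy
    rw [← Nat.mod_add_div x (p ^ (b + 1)), ← Nat.mod_add_div y (p ^ (b + 1)), hxy.1, hxy.2]

end Pool.Agent.Helper3.T4
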