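import Pool.Agent.Helper3.T4.Pairs

/-!
# Few representations of sums imply few elements in an arc
-/

namespace Pool.Agent.Helper3.T4

open Finset Pool.Agent.Helper27.T4

/-- If all the values `g x` lie in the progression `u + j P`, `j < L`, and every sum
`g x + g y` has at most `C` representations, then there are at most `sqrt (C (2 L - 1))`
elements. -/
theorem card_arc_le {α G : Type*} [DecidableEq α] [AddCommGroup G] (S : Finset α) (g : α → G)
    (u P : G) (L C : ℕ) (hL : ∀ x ∈ S, ∃ j < L, g x = u + j • P)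
    (hC : ∀ s : G, ∀ T : Finset (α × α), (∀ q ∈ T, q.1 ∈ S ∧ q.2 ∈ S ∧ g q.1 + g q.2 = s) →
      T.card ≤ C) : S.card ^ 2 ≤ C * (2 * L - 1) := by
  classical
  choose! j hj hg using hL
  rw [sq, ← Finset.card_product]
  refine le_trans (Finset.card_le_mul_card_image_of_maps_to
    (f := fun q : α × α => j q.1 + j q.2) (t := Finset.range (2 * L - 1)) ?_ C ?_) ?_
  · intro q hq
    rw [Finset.mem_product] at hq
    have h1 := hj q.1 hq.1
    have h2 := hj q.2 hq.2
    rw [Finset.mem_range]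
    omega
  · intro k _
    refine hC (u + u + k • P) _ ?_
    intro q hq
    rw [Finset.mem_filter, Finset.mem_product] at hq
    obtain ⟨⟨h1, h2⟩, h3⟩ := hq
    refine ⟨h1, h2, ?_⟩
    rw [hg q.1 h1, hg q.2 h2, ← h3, add_smul]
    abel
  · rw [Finset.card_range]

/-- an arc of `Z/M`, intersected with a class modulo `P | M`, is a progression -/
theorem arc_progression (M P Y : ℕ) (hM : 0 < M) (hP : P ∣ M) (u r c : ZMod M)
    (hc : (c - u).val < Y) (hr : (ZMod.castHom hP (ZMod P)) c = ZMod.castHom hP (ZMod P) r) :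
    ∃ j : ℕ, j < Y / P + 1 ∧
      c = (u + (((ZMod.castHom hP (ZMod P) (r - u)).val : ℕ) : ZMod M)) + j • (P : ZMod M) := by
  have : NeZero M := ⟨by omega⟩
  have hP0 : 0 < P := Nat.pos_of_dvd_of_pos hP hM
  have : NeZero P := ⟨by omega⟩
  refine ⟨(c - u).val / P, ?_, ?_⟩
  · have := Nat.div_le_div_right (c := P) hc.le
    omega
  · have h1 : (ZMod.castHom hP (ZMod P) (r - u)).val = (c - u).val % P := by
      rw [map_sub, ← hr, ← map_sub]
      have h2 : ZMod.castHom hP (ZMod P) (c - u) = (((c - u).val : ℕ) : ZMod P) := by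
        conv_lhs => rw [← ZMod.natCast_zmod_val (c - u)]
        rw [map_natCast]
      rw [h2, ZMod.val_natCast]
    rw [h1, nsmul_eq_mul, add_assoc, ← Nat.cast_mul, ← Nat.cast_add,
      mul_comm ((c - u).val / P) P, Nat.mod_add_div, ZMod.natCast_zmod_val]
    ring

/-- Sidon-arc: the elements of an arc of length `Y` of `Z/M` in a given class modulo `P` -/
theorem card_arc_class_le {α : Type*} [DecidableEq α] (S : Finset α) (M P Y C : ℕ) (hM : 0 < M)
    (hP : P ∣ M) (g : α → ZMod M) (u r : ZMod M)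
    (hY : ∀ x ∈ S, (g x - u).val < Y)
    (hr : ∀ x ∈ S, (ZMod.castHom hP (ZMod P)) (g x) = ZMod.castHom hP (ZMod P) r)
    (hC : ∀ s : ZMod M, ∀ T : Finset (α × α),
      (∀ q ∈ T, q.1 ∈ S ∧ q.2 ∈ S ∧ g q.1 + g q.2 = s) → T.card ≤ C) :
    S.card ^ 2 ≤ C * (2 * (Y / P) + 1) := by
  have h := card_arc_le S g (u + (((ZMod.castHom hP (ZMod P) (r - u)).val : ℕ) : ZMod M))
    (P : ZMod M) (Y / P + 1) C (fun x hx => arc_progression M P Y hM hP u r _ (hY x hx) (hr x hx))
    hC
  have h2 : 2 * (Y / P + 1) - 1 = 2 * (Y / P) + 1 := by omega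
  rwa [h2] at h

/-- the primes `x` with `x^2 < p^a` and index in an arc of length `Y` -/
theorem card_Lg_arc_le {p : ℕ} (hp : p.Prime) (hp2 : p ≠ 2) (a Y : ℕ) (u : ZMod (p ^ a))
    (S : Finset ℕ) (hS : ∀ x ∈ S, x.Prime ∧ x.Coprime p ∧ x ^ 2 < p ^ a ∧
      (Lg p a x - u).val < Y) :
    S.card ^ 2 ≤ 2 * (p - 1) * (2 * Y + 1) := by
  have h := card_arc_class_le S (p ^ a) 1 Y (2 * (p - 1)) (pow_pos hp.pos a) (one_dvd _)
    (fun x => Lg p a x) u u (fun x hx => (hS x hx).2.2.2) (fun x _ => Subsingleton.elim _ _) ?_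
  · simpa using h
  · intro s T hT
    refine card_pairs_static hp hp2 a s T ?_
    intro q hq
    obtain ⟨h1, h2, h3⟩ := hT q hq
    obtain ⟨a1, a2, a3, _⟩ := hS _ h1
    obtain ⟨b1, b2, b3, _⟩ := hS _ h2
    exact ⟨a1, b1, a2, b2, a3, b3, h3⟩

end Pool.Agent.Helper3.T4
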