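import Pool.Agent.Helper53.TF.Reveal

/-!
# Finite uniform probability: independence, conditioning, greedy selection
-/

namespace Pool.Agent.Helper3.T4

open Finset Helper53.TF

section Indep

variable {K : Type*} [Fintype K] {V : K → Type*} [Fintype (∀ k, V k)]

/-- the event depends only on the coordinates of `P` -/
def Dep (P : Finset K) (S : (∀ k, V k) → Prop) : Prop :=
  ∀ w w' : (∀ k, V k), (∀ k ∈ P, w k = w' k) → (S w ↔ S w')

omit [Fintype K] [Fintype (∀ k, V k)] in
theorem Dep.mono {P Q : Finset K} {S : (∀ k, V k) → Prop} (h : Dep P S) (hPQ : P ⊆ Q) :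
    Dep Q S := fun w w' hw => h w w' (fun k hk => hw k (hPQ hk))

omit [Fintype K] [Fintype (∀ k, V k)] in
theorem Dep.and {P Q : Finset K} {S T : (∀ k, V k) → Prop} [DecidableEq K] (h : Dep P S)
    (h' : Dep Q T) : Dep (P ∪ Q) (fun w => S w ∧ T w) := fun w w' hw =>
  and_congr (h w w' (fun k hk => hw k (Finset.mem_union_left _ hk)))
    (h' w w' (fun k hk => hw k (Finset.mem_union_right _ hk)))

omit [Fintype K] in
theorem pr_def (S : (∀ k, V k) → Prop) :
    pr S = (∑ w : (∀ k, V k), ind (S w)) / (Fintype.card (∀ k, V k) : ℝ) := rfl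

omit [Fintype K] in
theorem pr_le_one (S : (∀ k, V k) → Prop) : pr S ≤ 1 := by
  rcases isEmpty_or_nonempty (∀ k, V k) with hemp | hne
  · rw [pr_def]; simp
  · have hpos : (0 : ℝ) < (Fintype.card (∀ k, V k) : ℝ) := by exact_mod_cast Fintype.card_pos
    rw [pr_def, div_le_one hpos]
    refine le_trans (Finset.sum_le_sum fun w _ => ind_le_one _) ?_
    simp [Finset.card_univ]

omit [Fintype K] in
/-- averaging over the coordinates of `P` -/
theorem pr_eq_avg (P : Finset K) (S : (∀ k, V k) → Prop) :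
    pr S * (Fintype.card (∀ k, V k) : ℝ) =
      ∑ w : (∀ k, V k), pr (fun w' => S (glue P w w')) := by
  rcases isEmpty_or_nonempty (∀ k, V k) with hemp | hne
  · simp
  · have hpos : (0 : ℝ) < (Fintype.card (∀ k, V k) : ℝ) := by exact_mod_cast Fintype.card_pos
    simp only [pr_def]
    rw [← Finset.sum_div, sum_glue P (fun w => ind (S w)), div_mul_cancel₀ _ hpos.ne',
      mul_div_cancel_left₀ _ hpos.ne']

omit [Fintype K] in
/-- conditioning on the coordinates of `P` -/
theorem pr_le_of_cond (P : Finset K) (S : (∀ k, V k) → Prop) (ε : ℝ) (hε : 0 ≤ ε)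
    (h : ∀ w, pr (fun w' => S (glue P w w')) ≤ ε) : pr S ≤ ε := by
  rcases isEmpty_or_nonempty (∀ k, V k) with hemp | hne
  · rw [pr_def]; simpa using hε
  · have hpos : (0 : ℝ) < (Fintype.card (∀ k, V k) : ℝ) := by exact_mod_cast Fintype.card_pos
    have h1 := pr_eq_avg P S
    have h2 : ∑ w : (∀ k, V k), pr (fun w' => S (glue P w w')) ≤
        ε * (Fintype.card (∀ k, V k) : ℝ) := by
      refine le_trans (Finset.sum_le_sum fun w _ => h w) ?_
      simp [Finset.card_univ, mul_comm]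
    rw [← h1] at h2
    exact le_of_mul_le_mul_right h2 hpos

omit [Fintype K] in
/-- conditioning, outside a bad event `A` of the coordinates of `P` -/
theorem pr_le_add_of_cond (P : Finset K) (A S : (∀ k, V k) → Prop) (hA : Dep P A) (ε : ℝ)
    (hε : 0 ≤ ε) (h : ∀ w, ¬ A w → pr (fun w' => S (glue P w w')) ≤ ε) :
    pr S ≤ pr A + ε := by
  have h1 : pr (fun w => S w ∧ ¬ A w) ≤ ε := by
    refine pr_le_of_cond P _ ε hε (fun w => ?_)
    by_cases hw : A w
    · have : ∀ w', ¬ (S (glue P w w') ∧ ¬ A (glue P w w')) := by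
        intro w' hh
        exact hh.2 ((hA w _ (fun k hk => (glue_of_mem P w w' hk).symm)).mp hw)
      rw [pr_def, Finset.sum_eq_zero (fun w' _ => ind_neg (this w'))]
      simpa using hε
    · exact le_trans (pr_mono (fun w' hh => hh.1)) (h w hw)
  have h2 : pr S ≤ pr (fun w => A w ∨ (S w ∧ ¬ A w)) := by
    refine pr_mono (fun w hw => ?_)
    by_cases hA' : A w
    · exact Or.inl hA'
    · exact Or.inr ⟨hw, hA'⟩
  exact le_trans h2 (le_trans (pr_or _ _) (by linarith))

omit [Fintype K] in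
/-- independence of two events -/
theorem pr_and (P : Finset K) (S T : (∀ k, V k) → Prop) (hS : Dep P S)
    (hT : ∀ w w' : (∀ k, V k), (∀ k, k ∉ P → w k = w' k) → (T w ↔ T w')) :
    pr (fun w => S w ∧ T w) = pr S * pr T := by
  rcases isEmpty_or_nonempty (∀ k, V k) with hemp | hne
  · simp [pr_def]
  · have hpos : (0 : ℝ) < (Fintype.card (∀ k, V k) : ℝ) := by exact_mod_cast Fintype.card_pos
    have h1 := sum_glue P (fun w : (∀ k, V k) => ind (S w ∧ T w))
    have h2 : ∑ w : (∀ k, V k), ∑ w' : (∀ k, V k), ind (S (glue P w w') ∧ T (glue P w w')) =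
        (∑ w : (∀ k, V k), ind (S w)) * ∑ w' : (∀ k, V k), ind (T w') := by
      rw [Finset.sum_mul_sum]
      refine Finset.sum_congr rfl fun w _ => Finset.sum_congr rfl fun w' _ => ?_
      rw [ind_and]
      congr 1
      · exact ind_congr (hS _ _ (fun k hk => glue_of_mem P w w' hk))
      · exact ind_congr (hT _ _ (fun k hk => glue_of_not_mem P w w' hk))
    rw [h2] at h1
    simp only [pr_def]
    rw [div_mul_div_comm, h1]
    field_simp

omit [Fintype K] in
/-- independence of finitely many events which depend on disjoint sets of coordinates -/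
theorem pr_forall {ι : Type*} [DecidableEq K] (I : Finset ι) (D : ι → Finset K)
    (hD : ∀ i ∈ I, ∀ j ∈ I, i ≠ j → Disjoint (D i) (D j)) (S : ι → (∀ k, V k) → Prop)
    (hS : ∀ i ∈ I, Dep (D i) (S i)) [Nonempty (∀ k, V k)] :
    pr (fun w => ∀ i ∈ I, S i w) = ∏ i ∈ I, pr (S i) := by
  classical
  induction I using Finset.induction_on with
  | empty =>
    have hpos : (0 : ℝ) < (Fintype.card (∀ k, V k) : ℝ) := by exact_mod_cast Fintype.card_pos
    rw [Finset.prod_empty, pr_def, div_eq_one_iff_eq hpos.ne',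
      Finset.sum_congr rfl fun w _ => ind_pos (by simp)]
    simp [Finset.card_univ]
  | insert i I hi ih =>
    rw [Finset.prod_insert hi, ← ih (fun j hj j' hj' => hD j (Finset.mem_insert_of_mem hj) j'
      (Finset.mem_insert_of_mem hj')) (fun j hj => hS j (Finset.mem_insert_of_mem hj)),
      ← pr_and (D i) (S i) (fun w => ∀ j ∈ I, S j w) (hS i (Finset.mem_insert_self i I))]
    · congr 1
      funext w
      rw [Finset.forall_mem_insert]
    · intro w w' hw
      refine forall_congr' fun j => forall_congr' fun hj => ?_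
      refine hS j (Finset.mem_insert_of_mem hj) w w' (fun k hk => hw k ?_)
      have hne : i ≠ j := fun h => hi (h ▸ hj)
      intro hk2
      exact (Finset.disjoint_left.mp (hD i (Finset.mem_insert_self i I) j
        (Finset.mem_insert_of_mem hj) hne)) hk2 hk

end Indep

section Greedy

variable {Ω : ℕ → Type*}

/-- dependent choice, one coordinate after the other -/
theorem exists_seq (P : ∀ n : ℕ, (∀ s, Ω s) → Prop)
    (hP : ∀ n f g, (∀ s, s ≤ n → f s = g s) → P n f → P n g)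
    (h0 : Nonempty (∀ s, Ω s))
    (h : ∀ n g, (∀ m < n, P m g) → ∃ ω : Ω n, P n (Function.update g n ω)) :
    ∃ f : (∀ s, Ω s), ∀ n, P n f := by
  classical
  obtain ⟨g0⟩ := h0
  have hs : ∀ n (g : {g : (∀ s, Ω s) // ∀ m < n, P m g}),
      ∃ ω : Ω n, ∀ m < n + 1, P m (Function.update g.1 n ω) := by
    intro n g
    obtain ⟨ω, hω⟩ := h n g.1 g.2
    refine ⟨ω, fun m hm => ?_⟩
    rcases Nat.lt_or_ge m n with h1 | h1
    · refine hP m g.1 _ (fun s hs => ?_) (g.2 m h1)
      rw [Function.update_of_ne (by omega)]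
    · have h2 : m = n := by omega
      subst h2
      exact hω
  choose ω hω using hs
  let G : ∀ n : ℕ, {g : (∀ s, Ω s) // ∀ m < n, P m g} := fun n =>
    Nat.rec (motive := fun n => {g : (∀ s, Ω s) // ∀ m < n, P m g}) ⟨g0, fun m hm => absurd hm (Nat.not_lt_zero m)⟩
      (fun n g => ⟨Function.update g.1 n (ω n g), hω n g⟩) n
  have hG : ∀ n, (G (n + 1)).1 = Function.update (G n).1 n (ω n (G n)) := fun n => rfl
  have hst : ∀ s n, s < n → (G n).1 s = (G (s + 1)).1 s := by
    intro s n hsn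
    induction n with
    | zero => omega
    | succ n ih =>
      rcases Nat.lt_or_ge s n with h1 | h1
      · rw [hG n, Function.update_of_ne (by omega), ih h1]
      · have h2 : s = n := by omega
        subst h2
        rfl
  refine ⟨fun s => (G (s + 1)).1 s, fun n => ?_⟩
  refine hP n (G (n + 1)).1 _ (fun s hs => hst s (n + 1) (by omega)) ?_
  exact (G (n + 1)).2 n (by omega)

/-- the proportion of the elements with the property `S` -/
noncomputable def fr {X : Type*} [Fintype X] (S : X → Prop) : ℝ :=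
  (∑ x : X, ind (S x)) / (Fintype.card X : ℝ)

theorem fr_def {X : Type*} [Fintype X] (S : X → Prop) :
    fr S = (∑ x : X, ind (S x)) / (Fintype.card X : ℝ) := rfl

theorem fr_nonneg {X : Type*} [Fintype X] (S : X → Prop) : 0 ≤ fr S :=
  div_nonneg (Finset.sum_nonneg fun _ _ => ind_nonneg _) (Nat.cast_nonneg _)

theorem fr_mono {X : Type*} [Fintype X] {S T : X → Prop} (h : ∀ x, S x → T x) : fr S ≤ fr T :=
  div_le_div_of_nonneg_right (Finset.sum_le_sum fun x _ => ind_mono (h x)) (Nat.cast_nonneg _)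

theorem fr_or {X : Type*} [Fintype X] (S T : X → Prop) :
    fr (fun x => S x ∨ T x) ≤ fr S + fr T := by
  unfold fr
  rw [← add_div, ← Finset.sum_add_distrib]
  refine div_le_div_of_nonneg_right (Finset.sum_le_sum fun x _ => ?_) (Nat.cast_nonneg _)
  by_cases h : S x
  · rw [ind_pos h, ind_pos (Or.inl h)]
    linarith [ind_nonneg (T x)]
  · by_cases h' : T x
    · rw [ind_pos h', ind_pos (Or.inr h')]
      linarith [ind_nonneg (S x)]
    · rw [ind_neg (not_or.2 ⟨h, h'⟩)]
      linarith [ind_nonneg (S x), ind_nonneg (T x)]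

theorem fr_exists {X ι : Type*} [Fintype X] (I : Finset ι) (S : ι → X → Prop) :
    fr (fun x => ∃ i ∈ I, S i x) ≤ ∑ i ∈ I, fr (S i) := by
  classical
  induction I using Finset.induction_on with
  | empty => simp [fr, ind]
  | insert i I hi ih =>
    rw [Finset.sum_insert hi]
    refine le_trans (fr_mono (T := fun x => S i x ∨ ∃ j ∈ I, S j x) ?_)
      (le_trans (fr_or _ _) (by linarith))
    intro x hx
    rw [Finset.exists_mem_insert] at hx
    exact hx

theorem exists_not_of_fr_lt {X : Type*} [Fintype X] [Nonempty X] (S : X → Prop)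
    (h : fr S < 1) : ∃ x, ¬ S x := by
  by_contra hcon
  push Not at hcon
  have hpos : (0 : ℝ) < (Fintype.card X : ℝ) := by exact_mod_cast Fintype.card_pos
  have : fr S = 1 := by
    unfold fr
    rw [div_eq_one_iff_eq hpos.ne', Finset.sum_congr rfl fun w _ => ind_pos (hcon w)]
    simp [Finset.card_univ]
  linarith

/-- Markov: the proportion of the `y` for which the conditional proportion is larger than `η` -/
theorem markov {X Y : Type*} [Fintype X] [Fintype Y] (R : X → Y → Prop) (ε η : ℝ) (hη : 0 < η)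
    (h : (∑ x : X, ∑ y : Y, ind (R x y)) ≤ ε * η * ((Fintype.card X : ℝ) * Fintype.card Y)) :
    fr (fun y : Y => η < fr (fun x : X => R x y)) ≤ ε ∨ ε < 0 := by
  rcases lt_or_ge ε 0 with hε | hε
  · exact Or.inr hε
  left
  rcases isEmpty_or_nonempty X with hX | hX
  · have : ∀ y : Y, ¬ (η < fr (fun x : X => R x y)) := by
      intro y
      have h1 : fr (fun x : X => R x y) = 0 := by simp [fr]
      rw [h1]
      exact not_lt.mpr hη.le
    have h2 : (∑ y : Y, ind (η < fr (fun x : X => R x y))) = 0 :=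
      Finset.sum_eq_zero (fun y _ => ind_neg (this y))
    rw [fr_def, h2, zero_div]
    exact hε
  rcases isEmpty_or_nonempty Y with hY | hY
  · simpa [fr] using hε
  have hXp : (0 : ℝ) < (Fintype.card X : ℝ) := by exact_mod_cast Fintype.card_pos
  have hYp : (0 : ℝ) < (Fintype.card Y : ℝ) := by exact_mod_cast Fintype.card_pos
  have h1 : (∑ y : Y, ind (η < fr (fun x : X => R x y))) * (η * Fintype.card X) ≤
      ∑ y : Y, ∑ x : X, ind (R x y) := by
    rw [Finset.sum_mul]
    refine Finset.sum_le_sum fun y _ => ?_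
    by_cases hy : η < fr (fun x : X => R x y)
    · rw [ind_pos hy, one_mul]
      have := hy.le
      unfold fr at this
      rwa [le_div_iff₀ hXp] at this
    · rw [ind_neg hy, zero_mul]
      exact Finset.sum_nonneg fun x _ => ind_nonneg _
  rw [Finset.sum_comm] at h1
  have h2 := le_trans h1 h
  unfold fr
  rw [div_le_iff₀ hYp]
  have h3 : (∑ y : Y, ind (η < (∑ x : X, ind (R x y)) / (Fintype.card X : ℝ))) *
      (η * Fintype.card X) ≤ (ε * Fintype.card Y) * (η * Fintype.card X) := by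
    refine le_trans h2 (le_of_eq ?_)
    ring
  exact le_of_mul_le_mul_right h3 (by positivity)

theorem greedy_dep [∀ s, Fintype (Ω s)]
    (Bad1 : ∀ s, Ω s → Prop)
    (Bad2 : ∀ t s, Ω t → Ω s → Prop) (η : ℕ → ℕ → ℝ) (n : ℕ) (f g : ∀ s, Ω s) (hfg : ∀ s, s ≤ n → f s = g s)
    (hP : ¬ Bad1 n (f n) ∧ (∀ s < n, ¬ Bad2 n s (f n) (f s)) ∧
      ∀ t, n < t → fr (fun x : Ω t => Bad2 t n x (f n)) ≤ η t n) :
    ¬ Bad1 n (g n) ∧ (∀ s < n, ¬ Bad2 n s (g n) (g s)) ∧
      ∀ t, n < t → fr (fun x : Ω t => Bad2 t n x (g n)) ≤ η t n := by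
  have hn := hfg n le_rfl
  refine ⟨hn ▸ hP.1, fun s hs => ?_, fun t ht => ?_⟩
  · rw [← hn, ← hfg s hs.le]
    exact hP.2.1 s hs
  · rw [← hn]
    exact hP.2.2 t ht

theorem greedy_step [∀ s, Fintype (Ω s)] [∀ s, Nonempty (Ω s)]
    (Bad1 : ∀ s, Ω s → Prop)
    (Bad2 : ∀ t s, Ω t → Ω s → Prop) (η : ℕ → ℕ → ℝ) (hη : ∀ t s, 0 < η t s)
    (h2 : ∀ t s, s < t → (∑ x : Ω t, ∑ y : Ω s, ind (Bad2 t s x y)) ≤
      η t s * η t s * ((Fintype.card (Ω t) : ℝ) * Fintype.card (Ω s)))
    (h : ∀ s T, fr (Bad1 s) + ∑ r ∈ Finset.range s, η s r +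
      ∑ t ∈ Finset.Ico (s + 1) T, η t s < 1) (n : ℕ) (g : ∀ s, Ω s)
    (hg : ∀ m < n, ¬ Bad1 m (g m) ∧ (∀ s < m, ¬ Bad2 m s (g m) (g s)) ∧
      ∀ t, m < t → fr (fun x : Ω t => Bad2 t m x (g m)) ≤ η t m) :
    ∃ ω : Ω n, ¬ Bad1 n (Function.update g n ω n) ∧
      (∀ s < n, ¬ Bad2 n s (Function.update g n ω n) (Function.update g n ω s)) ∧
      ∀ t, n < t → fr (fun x : Ω t => Bad2 t n x (Function.update g n ω n)) ≤ η t n := by
  classical
  by_contra hcon
  push Not at hcon
  -- the finite part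
  have hfin : ∀ ω : Ω n, ¬ (Bad1 n ω ∨ ∃ s ∈ Finset.range n, Bad2 n s ω (g s)) →
      ∃ t, n < t ∧ η t n < fr (fun x : Ω t => Bad2 t n x ω) := by
    intro ω hω
    rw [not_or] at hω
    have h3 := hcon ω
    rw [Function.update_self] at h3
    obtain ⟨t, ht1, ht2⟩ := h3 hω.1 (fun s hs => by
      rw [Function.update_of_ne (by omega)]
      exact fun hb => hω.2 ⟨s, Finset.mem_range.mpr hs, hb⟩)
    exact ⟨t, ht1, ht2⟩
  choose! τ hτ using hfin
  set T := Finset.univ.sup τ + 1 with hT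
  have hb : fr (fun ω : Ω n => (Bad1 n ω ∨ ∃ s ∈ Finset.range n, Bad2 n s ω (g s)) ∨
      ∃ t ∈ Finset.Ico (n + 1) T, η t n < fr (fun x : Ω t => Bad2 t n x ω)) < 1 := by
    refine lt_of_le_of_lt ?_ (h n T)
    refine le_trans (fr_or _ _) (add_le_add (le_trans (fr_or _ _) (add_le_add le_rfl ?_)) ?_)
    · refine le_trans (fr_exists _ _) (Finset.sum_le_sum fun s hs => ?_)
      exact (hg s (Finset.mem_range.mp hs)).2.2 n (Finset.mem_range.mp hs)
    · refine le_trans (fr_exists _ _) (Finset.sum_le_sum fun t ht => ?_)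
      rw [Finset.mem_Ico] at ht
      have h4 := markov (fun (x : Ω t) (y : Ω n) => Bad2 t n x y) (η t n) (η t n) (hη t n)
        (h2 t n (by omega))
      rcases h4 with h4 | h4
      · exact h4
      · exact absurd h4 (not_lt.mpr (hη t n).le)
  obtain ⟨ω, hω⟩ := exists_not_of_fr_lt _ hb
  rw [not_or] at hω
  obtain ⟨h5, h6⟩ := hτ ω hω.1
  refine hω.2 ⟨τ ω, ?_, h6⟩
  rw [Finset.mem_Ico]
  have := Finset.le_sup (f := τ) (Finset.mem_univ ω)
  omega


/-- greedy selection -/
theorem greedy [∀ s, Fintype (Ω s)] [∀ s, Nonempty (Ω s)] (Bad1 : ∀ s, Ω s → Prop)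
    (Bad2 : ∀ t s, Ω t → Ω s → Prop) (η : ℕ → ℕ → ℝ) (hη : ∀ t s, 0 < η t s)
    (h2 : ∀ t s, s < t → (∑ x : Ω t, ∑ y : Ω s, ind (Bad2 t s x y)) ≤
      η t s * η t s * ((Fintype.card (Ω t) : ℝ) * Fintype.card (Ω s)))
    (h : ∀ s T, fr (Bad1 s) + ∑ r ∈ Finset.range s, η s r +
      ∑ t ∈ Finset.Ico (s + 1) T, η t s < 1) :
    ∃ f : (∀ s, Ω s), (∀ s, ¬ Bad1 s (f s)) ∧ ∀ t s, s < t → ¬ Bad2 t s (f t) (f s) := by
  classical
  have key : ∃ f : (∀ s, Ω s), ∀ n, (fun (n : ℕ) (g : ∀ s, Ω s) =>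
      ¬ Bad1 n (g n) ∧ (∀ s < n, ¬ Bad2 n s (g n) (g s)) ∧
      ∀ t, n < t → fr (fun x : Ω t => Bad2 t n x (g n)) ≤ η t n) n f := by
    refine exists_seq (Ω := Ω) _ ?_ inferInstance ?_
    · exact greedy_dep Bad1 Bad2 η
    · exact greedy_step Bad1 Bad2 η hη h2 h
  obtain ⟨f, hf⟩ := key
  exact ⟨f, fun s => (hf s).1, fun t s hst => (hf t).2.1 s hst⟩

end Greedy

end Pool.Agent.Helper3.T4
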