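import Pool.Agent.Helper3.T4.Arc

/-!
# Decoding family by family
-/

namespace Pool.Agent.Helper3.T4

open Finset Pool.Agent.Helper27.T4

section Tree

variable {ι α : Type*} [Fintype ι] [DecidableEq ι] [DecidableEq α]

/-- the part of rank `< r` -/
def res (rk : ι → ℕ) (r : ℕ) (g : ι → α) : ι → Option α :=
  fun i => if rk i < r then some (g i) else none

theorem card_res_le (rk : ι → ℕ) (B : ι → ℕ) (S : Finset (ι → α))
    (h : ∀ f, ∀ g ∈ S, ((S.filter (fun g' => ∀ i, rk i < rk f → g' i = g i)).image
      (fun g' => g' f)).card ≤ B f) (r : ℕ) :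
    (S.image (res rk r)).card ≤ ∏ f ∈ Finset.univ.filter (fun f => rk f < r), B f := by
  classical
  induction r with
  | zero =>
    have h1 : (Finset.univ.filter (fun f : ι => rk f < 0)) = ∅ := by
      ext f; simp
    rw [h1, Finset.prod_empty]
    refine Finset.card_le_one.mpr ?_
    intro a ha b hb
    rw [Finset.mem_image] at ha hb
    obtain ⟨g, _, rfl⟩ := ha
    obtain ⟨g', _, rfl⟩ := hb
    funext i
    simp [res]
  | succ r ih =>
    have hsplit : ∏ f ∈ Finset.univ.filter (fun f => rk f < r + 1), B f =
        (∏ f ∈ Finset.univ.filter (fun f => rk f = r), B f) *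
        ∏ f ∈ Finset.univ.filter (fun f => rk f < r), B f := by
      rw [← Finset.prod_union]
      · apply Finset.prod_congr _ (fun _ _ => rfl)
        ext f
        simp only [Finset.mem_filter, Finset.mem_univ, true_and, Finset.mem_union]
        omega
      · rw [Finset.disjoint_filter]
        intro f _ h1
        omega
    rw [hsplit]
    refine le_trans (Finset.card_le_mul_card_image_of_maps_to
      (f := fun z : ι → Option α => (fun i => if rk i < r then z i else none))
      (t := S.image (res rk r)) ?_ _ ?_) (Nat.mul_le_mul_left _ ih)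
    · intro z hz
      rw [Finset.mem_image] at hz ⊢
      obtain ⟨g, hg, rfl⟩ := hz
      refine ⟨g, hg, ?_⟩
      funext i
      simp only [res]
      by_cases h1 : rk i < r
      · rw [if_pos h1, if_pos h1, if_pos (by omega)]
      · rw [if_neg h1, if_neg h1]
    · intro y hy
      rw [Finset.mem_image] at hy
      obtain ⟨g0, hg0, rfl⟩ := hy
      set T : {f // rk f = r} → Finset (Option α) := fun f =>
        ((S.filter (fun g' => ∀ i, rk i < rk f.1 → g' i = g0 i)).image
          (fun g' => g' f.1)).image some with hT
      have hc : (Fintype.piFinset T).card ≤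
          ∏ f ∈ Finset.univ.filter (fun f => rk f = r), B f := by
        rw [Fintype.card_piFinset, ← Finset.prod_subtype_eq_prod_filter,
          Finset.subtype_univ]
        refine Finset.prod_le_prod' (fun f _ => ?_)
        exact le_trans Finset.card_image_le (h f.1 g0 hg0)
      refine le_trans (Finset.card_le_card_of_injOn
        (fun z : ι → Option α => (fun f : {f // rk f = r} => z f.1)) ?_ ?_) hc
      · intro z hz
        simp only [Finset.coe_filter, Finset.mem_image, Set.mem_ofPred_eq] at hz
        obtain ⟨⟨g, hg, rfl⟩, hz2⟩ := hz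
        simp only [Finset.mem_coe, Fintype.mem_piFinset]
        intro f
        rw [hT]
        simp only [Finset.mem_image, Finset.mem_filter]
        refine ⟨g f.1, ⟨g, ⟨hg, ?_⟩, rfl⟩, ?_⟩
        · intro i hi
          have h2 := congrFun hz2 i
          have h3 : rk i < r := by rw [← f.2]; exact hi
          simp only [res] at h2
          rw [if_pos h3, if_pos h3, if_pos (by omega)] at h2
          exact Option.some_injective _ h2
        · simp only [res]
          rw [if_pos (by have := f.2; omega)]
      · intro z hz z' hz' hzz
        simp only [Finset.coe_filter, Finset.mem_image, Set.mem_ofPred_eq] at hz hz'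
        obtain ⟨⟨g, _, rfl⟩, hz2⟩ := hz
        obtain ⟨⟨g', _, rfl⟩, hz2'⟩ := hz'
        funext i
        rcases lt_trichotomy (rk i) r with h1 | h1 | h1
        · have h2 := congrFun (hz2.trans hz2'.symm) i
          simp only [if_pos h1] at h2
          exact h2
        · exact congrFun hzz ⟨i, h1⟩
        · simp only [res]
          rw [if_neg (by omega), if_neg (by omega)]

/-- counting family by family -/
theorem card_le_prod_of_rank (rk : ι → ℕ) (B : ι → ℕ) (S : Finset (ι → α))
    (h : ∀ f, ∀ g ∈ S, ((S.filter (fun g' => ∀ i, rk i < rk f → g' i = g i)).image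
      (fun g' => g' f)).card ≤ B f) : S.card ≤ ∏ f, B f := by
  classical
  set R := Finset.univ.sup rk + 1 with hR
  have hlt : ∀ i : ι, rk i < R := fun i => by
    have := Finset.le_sup (f := rk) (Finset.mem_univ i)
    omega
  have h1 := card_res_le rk B S h R
  have h2 : (Finset.univ.filter (fun f => rk f < R)) = Finset.univ := by
    ext f
    simp [hlt f]
  rw [h2] at h1
  refine le_trans (le_of_eq ?_) h1
  rw [Finset.card_image_of_injective]
  intro g g' hg
  funext i
  have h3 := congrFun hg i
  simp only [res] at h3
  rw [if_pos (hlt i), if_pos (hlt i)] at h3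
  exact Option.some_injective _ h3

end Tree

end Pool.Agent.Helper3.T4
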